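import Pool.Agent.Y101.Sf.Alb

/-!
# Beilinson's conjecture on zero-cycles and the self-intersection of the canonical class
-/

open CategoryTheory AlgebraicGeometry

universe u v w

namespace Pool.Agent.Results.MP_2eeeac_ag.CanonicalSelfIntersection

open Pool.Agent.H914 Pool.Agent.H914.VarClass Pool.Agent.H914.VarClass.Obj Pool.Agent.W492.BB
  Pool.Agent.TH133 Pool.Agent.Y101.Sf

/-- Let `k` be an algebraically closed field of characteristic zero, for example the field of
algebraic numbers. The following are equivalent: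
* the Albanese kernel `F^2 CH_0(X)_ℚ` is zero for all smooth projective varieties `X` over `k` of
  positive dimension;
* it is zero for all surfaces;
* for all surfaces `S` and divisors `l`, `l'` on `S`, if `l l' ∈ CH_0(S)_ℚ` lies in the Albanese
  kernel then it is zero;
* for all surfaces `S`, if the self-intersection `K_S^2 ∈ CH_0(S)_ℚ` of the canonical class lies in
  the Albanese kernel then it is zero. -/
theorem result {k : Type u} [Field k] {𝒱 : VarClass k} {C : TheoryData.{u, v, 0} 𝒱 ℚ}
    [IsChowProj C] {L : ∀ X : 𝒱.Obj, Set (C.A X)} {can : ∀ X : 𝒱.Obj, C.A X} {U : 𝒱.Obj}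
    (hU : U.dim = 0) (hD : IsDivisorTheory C L can) (hc : HasCovers C U L can)
    (hs : SurfacesSuffice C) :
    List.TFAE [
      ∀ X : 𝒱.Obj, 1 ≤ X.dim → ∀ α : C.A X, InAlbKer C α → α = 0,
      ∀ S : 𝒱.Obj, S.dim = 2 → ∀ α : C.A S, InAlbKer C α → α = 0,
      ∀ S : 𝒱.Obj, S.dim = 2 → ∀ l ∈ L S, ∀ l' ∈ L S, InAlbKer C (C.mul l l') → C.mul l l' = 0,
      ∀ S : 𝒱.Obj, S.dim = 2 → InAlbKer C (C.mul (can S) (can S)) →
        C.mul (can S) (can S) = 0] :=
  alb_tfae hU hD hc hs

end Pool.Agent.Results.MP_2eeeac_ag.CanonicalSelfIntersection
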